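import Pool.Agent.Q181.FL.NonPoor

set_option autoImplicit false

namespace Pool.Agent.Results.MP_78c350_an.NeitherPoorNorCongl

open Pool.Agent.Q181.FL

/-- In ZFC: there is a free filter on `ℕ` which is neither poor nor conglomerated. -/
theorem result : ∃ F : Filter ℕ, IsFree F ∧ ¬ IsPoor F ∧ ¬ IsConglomerated F :=
  exists_nonpoor_nonconglomerated

end Pool.Agent.Results.MP_78c350_an.NeitherPoorNorCongl
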